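import Mathlib
import Pool.Agent.Y587.CBFinal
import Pool.Agent.W872.CC.Run

/-!
# Choose can win at the least inaccessible cardinal

`Measure`, `AddSub`, `LeastInacc` are defined in `Pool.Agent.Y587.CBGame` and `Pool.Agent.Y587.CBDefs`;
`ChooseHasStrategyLe` and `ChooseHasStrategy` are defined in `Pool.Agent.W872.CC.Defs`.
-/

set_option autoImplicit false

namespace Pool.Agent.Results.MP_21de40_lc.ChooseWinsAtLeast

open Cardinal Pool.Agent.Helper669.Forcing Pool.Agent.W872.CC Pool.Agent.Y587.CB

/-- Let `|K|` be a measurable cardinal and let `|L|` be the least inaccessible cardinal above it.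
Adding `|K|` many Cohen subsets of `ω₁` forces: `|L|` is the least inaccessible cardinal, and Choose
has winning strategies in the games `U(L, ≤ω)` and `U(L, ω)`. -/
theorem result (K L : Type) (U : Ultrafilter K) (hU : Measure U) (hL : (#L).IsInaccessible)
    (hKL : #K < #L) (hgap : ∀ μ : Cardinal.{0}, #K < μ → μ < #L → ¬ μ.IsInaccessible) :
    ∀ p : AddSub (K × W1), p ∈ LeastInacc (AddSub (K × W1)) L ∧
      p ∈ ChooseHasStrategyLe (AddSub (K × W1)) L ∧ p ∈ ChooseHasStrategy (AddSub (K × W1)) L := by
  intro p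
  obtain ⟨ι⟩ := (Cardinal.le_def _ _).1 hKL.le
  refine ⟨leastInacc hU hL hKL hgap p, ?_, chooseHasStrategy hU ι.injective p⟩
  exact mem_fex_of_mem (φ := fun σ : List (L → Set (AddSub (K × W1))) → Set (AddSub (K × W1)) =>
      fall fun A : ℕ → L → Set (AddSub (K × W1)) => ChooseWinsLe σ A) (strat U ι)
    (down_fall fun _ => down_fand (down_fall fun _ => down_fex _) (down_fex _))
    fun A => chooseWinsLe_of_chooseWins (chooseWins hU ι.injective A p)

end Pool.Agent.Results.MP_21de40_lc.ChooseWinsAtLeast
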