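import Mathlib
import Pool.Agent.Y587.CCFinal

/-!
# The least cardinal on which Choose wins the cut and choose game of length `ω`

`ChooseWins K` (in `Pool.Agent.Y587.CCDefs`) says that Choose has a winning strategy in the game
`U(K, ≤ω)`, `Wins κ` that this holds for the cardinal `κ`. `Mahlo`, `WeaklyMahlo`, `ClubIn` are
defined in `Pool.Agent.Y587.CCFinal`.
-/

set_option autoImplicit false

namespace Pool.Agent.Results.MP_21de40_lc.LeastMahlo

open Pool.Agent.Y587.CC

universe u

/-- The least cardinal on which Choose wins is regular; if it is a limit cardinal, it is weakly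
Mahlo; if it is inaccessible, it is Mahlo. Hence, for an inaccessible cardinal that is not Mahlo, in
particular for the least inaccessible cardinal, Choose wins on it if and only if Choose wins on a
smaller cardinal. -/
theorem result :
    (∀ κ : Cardinal.{u}, Wins κ → (∀ μ < κ, ¬ Wins μ) →
      κ.IsRegular ∧ (Order.IsSuccLimit κ → WeaklyMahlo κ) ∧ (κ.IsInaccessible → Mahlo κ)) ∧
    (∀ κ : Cardinal.{u}, κ.IsInaccessible → ¬ Mahlo κ → (Wins κ ↔ ∃ μ < κ, Wins μ)) ∧
    (∀ κ : Cardinal.{u}, κ.IsInaccessible → (∀ μ < κ, ¬ μ.IsInaccessible) →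
      (Wins κ ↔ ∃ μ < κ, Wins μ)) := by
  have h2 : ∀ κ : Cardinal.{u}, κ.IsInaccessible → ¬ Mahlo κ → (Wins κ ↔ ∃ μ < κ, Wins μ) := by
    intro κ hin hm
    refine ⟨fun h => ?_, fun ⟨μ, hμ, h⟩ => h.mono hμ.le⟩
    by_contra hcon
    push Not at hcon
    exact hm (mahlo_of_least h hcon hin)
  refine ⟨fun κ h hmin => ⟨regular_of_least h hmin, weaklyMahlo_of_least h hmin,
    mahlo_of_least h hmin⟩, h2, fun κ hin hleast => h2 κ hin fun hm => ?_⟩
  obtain ⟨μ, hμ, hμ', -⟩ := hm.2 _ (clubIn_univ hin)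
  exact hleast μ hμ hμ'

end Pool.Agent.Results.MP_21de40_lc.LeastMahlo
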